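import Pool.Agent.Lib_MP_f5471b_aa.Final

/-!
Strong Lang-Silverman lower bound for the forms of the powers of almost all elliptic curves over a
number field, with no hypothesis on the curve: the density one form of the question.

The curves are `y² = x³ + a x + b` with `a`, `b` in the ring of integers of `K`, in the boxes
`|u_i| ≤ X²`, `|v_i| ≤ X³` for the coordinates `u`, `v` of `a`, `b` in a `ℤ`-basis `ω` of the ring of
integers. For every `η > 0` the exceptional set in the box has at most
`C (X^(5 d - 3 + η) + X^(3 d))` elements (`d = [K : ℚ]`, the box has about `X^(5 d)` elements), and at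
most `C X^η` elements on each line on which only one coordinate of `b` varies (`a ≠ 0`). For all the
other pairs, the dichotomy holds for all forms of `E ^ g`, all polarisations and all points, with
constants depending only on `K`, `ω`, `g`, `η`; the lower bound in alternative (b) contains
`log X`, which bounds the height of the equation.

Proof: `UniformJ` (lower bound for curves whose height of the `j`-invariant is bounded by a constant
times the logarithm of the radical of the denominator of the `j`-invariant), and Rankin's method: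
for all but few pairs the norm of `4 a³ + 27 b²` has prime factors not dividing `6 N(a)` with
product at least `X^(η/2)`.
-/

namespace Pool.Agent.Old.MP_f5471b_nt.AlmostAll

open LangForms NumberField WeierstrassCurve

open scoped Classical in
/-- For every number field `K`, every `ℤ`-basis `ω` of its ring of integers, `g ≥ 1` and `η > 0`
there are `c₁, c₂, C > 0` such that for every integer `X ≥ 1` there is a finite set `S` of pairs
`(u, v)` of integer vectors, of cardinality at most `C (X^(5 d - 3) X^η + X^(3 d))`, and with at most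
`C X^η` elements on each line in the direction of a coordinate of `v` if `u ≠ 0`, such that for all
pairs `(u, v)` not in `S` with `|u_i| ≤ X²`, `|v_i| ≤ X³` for which the curve
`W : y² = x³ + a x + b`, `a = ∑ u_i ω_i`, `b = ∑ v_i ω_i`, is elliptic, every form `A` of `W ^ g`, every
polarisation `M` of `A` and every `P ∈ A(K)`: either alternative (a) holds with the constant `c₂`,
or `P` is not a torsion point, `h(P) ≥ c₁ (1 + h(j))`, `h(P) ≥ c₁ (1 + log X)` and `h(P) ≥ c₁ R`,
where `R` is the sum of `log N p / [K : ℚ]` over the primes `p` of `K` ramified in `F`. -/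
theorem result (K ι : Type) [Field K] [NumberField K] [Fintype ι] (ω : Module.Basis ι ℤ (𝓞 K))
    (g : ℕ) (hg : 1 ≤ g) (η : ℝ) (hη : 0 < η) :
    ∃ c₁ c₂ C : ℝ, 0 < c₁ ∧ 0 < c₂ ∧ 0 < C ∧ ∀ X : ℕ, 1 ≤ X →
    ∃ S : Finset ((ι → ℤ) × (ι → ℤ)),
      (S.card : ℝ) ≤ C * ((X : ℝ) ^ (5 * Module.finrank ℚ K - 3) * (X : ℝ) ^ η +
        (X : ℝ) ^ (3 * Module.finrank ℚ K)) ∧
      (∀ (u v : ι → ℤ) (i₀ : ι), u ≠ 0 →
        ((S.filter (fun z => z.1 = u ∧ ∀ i, i ≠ i₀ → z.2 i = v i)).card : ℝ) ≤
          C * (X : ℝ) ^ η) ∧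
      ∀ u v : ι → ℤ, (∀ i, |u i| ≤ (X : ℤ) ^ 2) → (∀ i, |v i| ≤ (X : ℤ) ^ 3) → (u, v) ∉ S →
      ∀ (W : WeierstrassCurve K) [W.IsElliptic],
      W = ⟨0, 0, 0, ((∑ i, u i • ω i : 𝓞 K) : K), ((∑ i, v i • ω i : 𝓞 K) : K)⟩ →
      ∀ (F : Type) [Field F] [NumberField F] [DecidableEq F] [Algebra K F] [IsGalois K F]
      (ρ : (F ≃ₐ[K] F) →* Matrix.GeneralLinearGroup (Fin g) ℤ) (M : Matrix (Fin g) (Fin g) ℤ)
      (P : Fin g → (W.baseChange F).toAffine.Point),
      Function.Injective ρ → IsPolForm ρ M → IsKPoint ρ P →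
      Obstructed ρ M P c₂ ∨
        ((∀ n : ℕ, 1 ≤ n → n • P ≠ 0) ∧ c₁ * (1 + hJ W) ≤ ntL M P ∧
          c₁ * (1 + Real.log X) ≤ ntL M P ∧ RamLe K F c₁ (ntL M P)) := by
  have hη' : 0 < min η 1 := lt_min hη one_pos
  obtain ⟨C, hC, hcard⟩ := card_excSet ω hη' (min_le_right _ _)
  obtain ⟨c₁, c₂, h₁, h₂, h⟩ := almost_all ω g hg hη'
  refine ⟨c₁, c₂, C, h₁, h₂, hC, fun X hX => ⟨excSet ω X ⌊(X : ℝ) ^ (min η 1 / 2)⌋₊, ?_, ?_, ?_⟩⟩
  · have hX1 : (1 : ℝ) ≤ X := by exact_mod_cast hX
    have hle : (X : ℝ) ^ min η 1 ≤ (X : ℝ) ^ η :=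
      Real.rpow_le_rpow_of_exponent_le hX1 (min_le_left _ _)
    refine (hcard X _ hX (Nat.floor_le (by positivity))).1.trans ?_
    apply mul_le_mul_of_nonneg_left _ hC.le
    have := mul_le_mul_of_nonneg_left hle
      (show (0 : ℝ) ≤ (X : ℝ) ^ (5 * Module.finrank ℚ K - 3) by positivity)
    linarith
  · intro u v i₀ hu
    have hX1 : (1 : ℝ) ≤ X := by exact_mod_cast hX
    have hle : (X : ℝ) ^ min η 1 ≤ (X : ℝ) ^ η :=
      Real.rpow_le_rpow_of_exponent_le hX1 (min_le_left _ _)
    exact ((hcard X _ hX (Nat.floor_le (by positivity))).2 u v i₀ hu).trans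
      (mul_le_mul_of_nonneg_left hle hC.le)
  · intro u v hu hv huv W hW hWeq
    have hWeq' : W = curveAB (lin ω u : K) (lin ω v : K) := hWeq
    subst hWeq'
    intro F _ _ _ _ _ ρ M P hρ hM hP
    exact h X hX u v hu hv huv F ρ M P hρ hM hP

end Pool.Agent.Old.MP_f5471b_nt.AlmostAll
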